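import Pool.Agent.Y63.TopCat.Lower

/-!
The degree of the halting problem is the degree of topological categoricity of the infinite
discrete space.
-/

set_option autoImplicit false

namespace Pool.Agent.Results.MP_55a818_lc.HaltingDegree

open Pool.Agent.Helper583.TT (CMS)
open Pool.Agent.Helper583.TC (Red)
open Pool.Agent.H109R3.TC (Cat CatBoth)

open Classical in
/-- the characteristic function of a set -/
noncomputable def chi (A : ℕ → Prop) (n : ℕ) : ℕ := if A n then 1 else 0

/-- There is a noncomputable c.e. set `A` (a complete one: every c.e. set is Turing reducible to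
it) whose Turing degree is the degree of topological categoricity of the infinite discrete space
`ℕ`, which is a computable Polish space. The last clause says the same with the variant of
categoricity in which the homeomorphism and its inverse are both required to be computable
relative to the oracle. -/
theorem result : ∃ A : ℕ → Prop, REPred A ∧ ¬ ComputablePred A ∧
    (∀ B : ℕ → Prop, REPred B → Red (chi B) (chi A)) ∧
    (∃ M : CMS, Nonempty (M.Y ≃ₜ ℕ)) ∧
    (Cat ℕ (chi A) ∧ ∀ a : ℕ → ℕ, Cat ℕ a → Red (chi A) a) ∧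
    (CatBoth ℕ (chi A) ∧ ∀ a : ℕ → ℕ, CatBoth ℕ a → Red (chi A) a) :=
  ⟨Pool.Agent.Y63.TopCat.K, Pool.Agent.Y63.TopCat.K_re, Pool.Agent.Y63.TopCat.K_not_computable,
    fun _ hB => Pool.Agent.Y63.TopCat.red_chi_K hB,
    ⟨Pool.Agent.Y63.TopCat.std, Pool.Agent.Y63.TopCat.std_homeo⟩,
    ⟨Pool.Agent.Y63.TopCat.catBoth_K.cat, fun _ h => Pool.Agent.Y63.TopCat.red_of_cat h⟩,
    ⟨Pool.Agent.Y63.TopCat.catBoth_K, fun _ h => Pool.Agent.Y63.TopCat.red_of_cat h.cat⟩⟩

end Pool.Agent.Results.MP_55a818_lc.HaltingDegree
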