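import Pool.Agent.H109R3.LA.Final1
import Pool.Agent.Y403.LW.Apx

/-!
# No low c.e. degree is a degree of topological categoricity

Let `A` be a noncomputable c.e. set which is low. No infinite computable Polish space is
`a`-categorical for an oracle `a` which is recursive in `A`, and the Turing degree of `A` is not
the degree of topological categoricity of any computable Polish space.

The starting result `NotEveryCE` says this for some c.e. set `A`.
-/

set_option autoImplicit false

namespace Pool.Agent.Results.MP_55a818_lc.NoLowDegree

open Pool.Agent.Helper583.TT (CMS)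
open Pool.Agent.Helper583.TC (Red orc)
open Pool.Agent.H109R3.TC

/-- the characteristic function of a set -/
noncomputable def chi (A : ℕ → Prop) (n : ℕ) : ℕ :=
  open Classical in if A n then 1 else 0

/-- The list of the first `k` bits of the characteristic function of `A`. -/
noncomputable def initial (A : ℕ → Prop) (k : ℕ) : List Bool :=
  open Classical in (List.range k).map fun n => decide (A n)

/-- The set `A` is low: every set of natural numbers which is `Σ₁` relative to `A`, that is of the
form `{n | R (n, A ↾ k) for some k}` with `R` computable, is limit computable. -/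
def Low (A : ℕ → Prop) : Prop :=
  ∀ R : ℕ → List Bool → Bool, Computable₂ R →
    ∃ g : ℕ → ℕ → Bool, Computable₂ g ∧
      ∀ n, ∃ s₀, ∀ s ≥ s₀, (g n s = true ↔ ∃ k, R n (initial A k) = true)

/-- `X` is a computable Polish space. -/
def ComputablePolish (X : Type) [TopologicalSpace X] : Prop := ∃ M : CMS, Nonempty (M.Y ≃ₜ X)

theorem cat_mono {X : Type} [TopologicalSpace X] {a b : ℕ → ℕ} (h : Red a b) (hc : Cat X a) :
    Cat X b := by
  intro M N hM hN
  obtain ⟨e, φ, hφ, h1⟩ := hc M N hM hN
  refine ⟨e, φ, hφ.subst ?_, h1⟩
  intro g hg
  rw [Set.mem_singleton_iff] at hg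
  subst hg
  exact RecursiveIn.iff_nat.2 h

/-- Let `A` be a noncomputable low c.e. set. No infinite computable Polish space is
`a`-categorical for any `a` recursive in `A`, and the Turing degree of `A` is not the degree of
topological categoricity of any computable Polish space, finite or infinite. The last clause says
the same with the variant of categoricity in which the homeomorphism and its inverse are both
required to be computable relative to the oracle. -/
theorem result (A : ℕ → Prop) (hce : REPred A) (hnc : ¬ ComputablePred A) (hlow : Low A) :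
    (∀ (X : Type) [TopologicalSpace X] [Infinite X], ComputablePolish X →
      ∀ a : ℕ → ℕ, Red a (chi A) → ¬ Cat X a) ∧
    (∀ (X : Type) [TopologicalSpace X], ComputablePolish X →
      ¬ (Cat X (chi A) ∧ ∀ a : ℕ → ℕ, Cat X a → Red (chi A) a)) ∧
    (∀ (X : Type) [TopologicalSpace X], ComputablePolish X →
      ¬ (CatBoth X (chi A) ∧ ∀ a : ℕ → ℕ, CatBoth X a → Red (chi A) a)) := by
  classical
  set B : ℕ → Bool := fun n => decide (A n) with hB
  have hAB : (fun n => B n = true) = A := by
    funext n
    simp [hB]
  have hinit : ∀ k, Pool.Agent.Y403.LW.seg B k = initial A k := by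
    intro k
    unfold Pool.Agent.Y403.LW.seg initial
    apply List.map_congr_left
    intro n _
    rw [hB]
  have hL : Pool.Agent.H938R3.TC.LowCE B := by
    refine Pool.Agent.Y403.LW.lowCE_of_isLow (by rw [hAB]; exact hce) (fun h => hnc ?_)
      (fun R hR => ?_)
    · exact ⟨fun n => Classical.dec _, h.of_eq fun n => by rw [hB]⟩
    · obtain ⟨g, hg, h⟩ := hlow R hR
      refine ⟨g, hg, fun n => ?_⟩
      obtain ⟨s₀, h1⟩ := h n
      refine ⟨s₀, fun s hs => ?_⟩
      rw [h1 s hs]
      simp only [hinit]
  obtain ⟨h1, h2, h3, h4, h5⟩ := Pool.Agent.H109R3.LA.final1 hL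
  have hchi : chi A = Pool.Agent.H109R3.LA.ch B := by
    funext n
    unfold chi Pool.Agent.H109R3.LA.ch
    by_cases h : A n
    · rw [if_pos h]
      have : B n = true := by rw [hB]; exact decide_eq_true h
      rw [this]; rfl
    · rw [if_neg h]
      have : B n = false := by rw [hB]; exact decide_eq_false h
      rw [this]; rfl
  refine ⟨?_, ?_, ?_⟩
  · intro X _ _ hX a ha hc
    rw [hchi] at ha
    exact h3 X hX (cat_mono ha hc)
  · intro X _ hX
    rw [hchi]
    exact h4 X hX
  · intro X _ hX
    rw [hchi]
    exact h5 X hX

end Pool.Agent.Results.MP_55a818_lc.NoLowDegree
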